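import Pool.Agent.BCS.Stmts3
import Pool.Agent.Helper17_BCS.CNS

/-!
Squad BCS (MP_fb4904_gt), row CT3: continuity in the fibre variables, `|∇h|² ≥ 0`.
-/

set_option autoImplicit false

noncomputable section

open scoped ContDiff Topology
open Set

namespace Pool.Agent.BCS.H46

open Pool.Agent.SecondKind (Coord pd inv christoffel curv ricci)
open Pool.Agent.BCS

variable {m : ℕ}

/-- the inverse of a positive definite matrix is positive -/
theorem inv_nonneg_form {A : Matrix (Fin m) (Fin m) ℝ}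
    (hA : ∀ v : Fin m → ℝ, v ≠ 0 → 0 < ∑ i, ∑ j, A i j * v i * v j) (x : Fin m → ℝ) :
    0 ≤ ∑ i, ∑ j, A⁻¹ i j * x i * x j := by
  have hd : A.det ≠ 0 := H17.det_ne hA
  have hu : IsUnit A.det := isUnit_iff_ne_zero.2 hd
  have h1 : A.mulVec (A⁻¹.mulVec x) = x := by
    rw [Matrix.mulVec_mulVec, Matrix.mul_nonsing_inv A hu, Matrix.one_mulVec]
  have h2 : ∑ i, ∑ j, A⁻¹ i j * x i * x j = ∑ i, x i * (A⁻¹.mulVec x) i := by
    refine Finset.sum_congr rfl fun i _ => ?_
    rw [Matrix.mulVec, dotProduct, Finset.mul_sum]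
    exact Finset.sum_congr rfl fun j _ => by ring
  have h3 : ∑ i, x i * (A⁻¹.mulVec x) i =
      ∑ i, ∑ j, A i j * (A⁻¹.mulVec x) i * (A⁻¹.mulVec x) j := by
    refine Finset.sum_congr rfl fun i _ => ?_
    have h4 : x i = ∑ j, A i j * (A⁻¹.mulVec x) j := by
      conv_lhs => rw [← h1]
      rfl
    rw [h4, Finset.sum_mul]
    exact Finset.sum_congr rfl fun j _ => by ring
  rw [h2, h3]
  by_cases hw : A⁻¹.mulVec x = 0
  · rw [hw]
    simp
  · exact (hA _ hw).le

/-- row CT3 -/
theorem ct3 : Ct3Stmt := by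
  intro m k h hk hh
  have hg := hk.smooth
  have hd : ∀ t, (Matrix.of (k t)).det ≠ 0 := fun t => H17.det_ne (hk.pos t)
  refine ⟨?_, ?_, ?_, ?_⟩
  · have h1 : ContDiff ℝ ∞ (scal k) := by
      unfold scal ricci
      refine ContDiff.sum fun j _ => ContDiff.sum fun l _ => ?_
      exact (H17.smooth_inv hg hd j l).mul
        (ContDiff.sum fun i _ => H17.smooth_curv hg hd i j l i)
    exact h1.continuous
  · have h1 : ContDiff ℝ ∞ (lapM k h) := by
      unfold lapM
      refine ContDiff.sum fun i _ => ContDiff.sum fun j _ => ?_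
      refine (H17.smooth_inv hg hd i j).mul
        ((H17.smooth_pd (H17.smooth_pd hh j) i).sub (ContDiff.sum fun l _ => ?_))
      exact (H17.smooth_christoffel hg hd l i j).mul (H17.smooth_pd hh l)
    exact h1.continuous
  · have h1 : ContDiff ℝ ∞ (gip k h h) := by
      unfold gip
      refine ContDiff.sum fun i _ => ContDiff.sum fun j _ => ?_
      exact ((H17.smooth_inv hg hd i j).mul (H17.smooth_pd hh i)).mul (H17.smooth_pd hh j)
    exact h1.continuous
  · intro t
    exact inv_nonneg_form (A := Matrix.of (k t)) (hk.pos t) (fun i => pd i h t)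

end Pool.Agent.BCS.H46
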