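import Pool.Agent.BCS.Stmts

/-!
Squad BCS (MP_fb4904_gt), row HMD: the mean curvature of the boundary.
-/

set_option autoImplicit false

noncomputable section

open scoped ContDiff Topology ComplexConjugate
open Set MeasureTheory

namespace Pool.Agent.BCS.H46

open Pool.Agent.SecondKind (Coord pd inv christoffel ricci)
open Pool.Agent.RLim.H58 (dg inv_dg christoffel_dg pd_mul pd_exp pd_const)
open Pool.Agent.BCS

variable {m : ℕ}

/-- the projection to the disc, a continuous linear map -/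
def P (m : ℕ) : (Fin (m + 2) → ℝ) →L[ℝ] ℂ :=
  (Complex.equivRealProdCLM.symm : ℝ × ℝ →L[ℝ] ℂ).comp
    ((ContinuousLinearMap.proj (R := ℝ) (φ := fun _ : Fin (m + 2) => ℝ) 0).prod
      (ContinuousLinearMap.proj (R := ℝ) (φ := fun _ : Fin (m + 2) => ℝ) 1))

/-- the projection to the torus, a continuous linear map -/
def T (m : ℕ) : (Fin (m + 2) → ℝ) →L[ℝ] (Fin m → ℝ) :=
  ContinuousLinearMap.pi fun i =>
    ContinuousLinearMap.proj (R := ℝ) (φ := fun _ : Fin (m + 2) => ℝ) i.succ.succ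

theorem P_apply (y : Fin (m + 2) → ℝ) : P m y = pr y := by
  unfold P pr
  simp [Complex.ext_iff]

theorem T_apply (y : Fin (m + 2) → ℝ) : T m y = tl y := rfl

theorem P_single0 : P m (Pi.single 0 1) = 1 := by
  rw [P_apply]
  unfold pr
  simp [Complex.ext_iff]

theorem P_single1 : P m (Pi.single 1 1) = Complex.I := by
  rw [P_apply]
  unfold pr
  simp [Complex.ext_iff]

theorem T_single0 : T m (Pi.single 0 1) = 0 := by
  rw [T_apply]
  funext i
  simp [tl]

theorem T_single1 : T m (Pi.single 1 1) = 0 := by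
  rw [T_apply]
  funext i
  have : ¬ (i.succ.succ = (1 : Fin (m + 2))) := by
    intro h
    have := congrArg Fin.val h
    simp at this
  simp [tl, this]

theorem pd_pr {φ : ℂ → ℝ} {y : Fin (m + 2) → ℝ} (h : DifferentiableAt ℝ φ (pr y)) :
    HasFDerivAt (fun y => φ (pr y)) ((fderiv ℝ φ (pr y)).comp (P m)) y := by
  have h1 : HasFDerivAt φ (fderiv ℝ φ (pr y)) (P m y) := by
    rw [P_apply]
    exact h.hasFDerivAt
  have h2 := h1.comp y (P m).hasFDerivAt
  have h3 : (φ ∘ ⇑(P m)) = fun y => φ (pr y) := by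
    funext z
    simp [P_apply]
  rwa [h3] at h2

theorem pd_chi {χ : ℂ → (Fin m → ℝ) → ℝ} {y : Fin (m + 2) → ℝ}
    (h : DifferentiableAt ℝ (fun p : ℂ × (Fin m → ℝ) => χ p.1 p.2) (pr y, tl y)) :
    HasFDerivAt (fun y => χ (pr y) (tl y))
      ((fderiv ℝ (fun p : ℂ × (Fin m → ℝ) => χ p.1 p.2) (pr y, tl y)).comp ((P m).prod (T m)))
      y := by
  have h1 : HasFDerivAt (fun p : ℂ × (Fin m → ℝ) => χ p.1 p.2)
      (fderiv ℝ (fun p : ℂ × (Fin m → ℝ) => χ p.1 p.2) (pr y, tl y)) (((P m).prod (T m)) y) := by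
    rw [ContinuousLinearMap.prod_apply, P_apply, T_apply]
    exact h.hasFDerivAt
  have h2 := h1.comp y ((P m).prod (T m)).hasFDerivAt
  have h3 : ((fun p : ℂ × (Fin m → ℝ) => χ p.1 p.2) ∘ ⇑((P m).prod (T m))) =
      fun y => χ (pr y) (tl y) := by
    funext z
    simp [P_apply, T_apply]
  rwa [h3] at h2

theorem dchi {χ : ℂ → (Fin m → ℝ) → ℝ} {z : ℂ} {t : Fin m → ℝ}
    (h : DifferentiableAt ℝ (fun p : ℂ × (Fin m → ℝ) => χ p.1 p.2) (z, t)) (v : ℂ) :
    fderiv ℝ (fun z => χ z t) z v =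
      fderiv ℝ (fun p : ℂ × (Fin m → ℝ) => χ p.1 p.2) (z, t) (v, 0) := by
  have h1 : HasFDerivAt (fun z : ℂ => (z, t)) (ContinuousLinearMap.inl ℝ ℂ (Fin m → ℝ)) z :=
    hasFDerivAt_prodMk_left z t
  have h2 := h.hasFDerivAt.comp z h1
  have h3 : ((fun p : ℂ × (Fin m → ℝ) => χ p.1 p.2) ∘ fun z : ℂ => (z, t)) = fun z => χ z t := rfl
  rw [h3] at h2
  rw [h2.fderiv]
  simp

/-- the derivatives of the exponents -/
theorem pd_exponent {g : ℂ → ℝ} {χ : ℂ → (Fin m → ℝ) → ℝ} (c : ℝ) {y : Fin (m + 2) → ℝ}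
    (hg : DifferentiableAt ℝ g (pr y))
    (h : DifferentiableAt ℝ (fun p : ℂ × (Fin m → ℝ) => χ p.1 p.2) (pr y, tl y)) :
    DifferentiableAt ℝ (fun y => g (pr y) + c * χ (pr y) (tl y)) y ∧
    pd 0 (fun y => g (pr y) + c * χ (pr y) (tl y)) y =
      dx g (pr y) + c * dx (fun z => χ z (tl y)) (pr y) ∧
    pd 1 (fun y => g (pr y) + c * χ (pr y) (tl y)) y =
      dy g (pr y) + c * dy (fun z => χ z (tl y)) (pr y) := by
  have h1 := (pd_pr hg).add ((pd_chi h).const_mul c)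
  have h2 : ((fun y => g (pr y)) + fun y : Fin (m + 2) → ℝ => c * χ (pr y) (tl y)) =
      fun y => g (pr y) + c * χ (pr y) (tl y) := rfl
  rw [h2] at h1
  refine ⟨h1.differentiableAt, ?_, ?_⟩
  · unfold pd dx
    rw [h1.fderiv, dchi h]
    simp [P_single0, T_single0]
  · unfold pd dy
    rw [h1.fderiv, dchi h]
    simp [P_single1, T_single1]

theorem succ_ne_one (i : Fin m) : ¬ (i.succ.succ = (1 : Fin (m + 2))) := by
  intro h
  have := congrArg Fin.val h
  simp at this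

theorem drho_ss (y : Fin (m + 2) → ℝ) (i : Fin m) : drho y i.succ.succ = 0 := by
  unfold drho
  rw [if_neg (Fin.succ_ne_zero _), if_neg (succ_ne_one i)]

theorem drho_zero (y : Fin (m + 2) → ℝ) : drho y 0 = y 0 := by simp [drho]

theorem drho_one (y : Fin (m + 2) → ℝ) : drho y 1 = y 1 := by simp [drho]

theorem sum2 (F : Fin (m + 2) → ℝ) : ∑ k, F k = F 0 + F 1 + ∑ i : Fin m, F i.succ.succ := by
  rw [Fin.sum_univ_succ, Fin.sum_univ_succ, ← add_assoc]
  rfl

/-- the normal field of a diagonal metric -/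
theorem nu_dg (w : Fin (m + 2) → (Fin (m + 2) → ℝ) → ℝ) (k : Fin (m + 2))
    (y : Fin (m + 2) → ℝ) :
    nu (dg w) k y = Real.exp (-(2 * w k y)) * drho y k /
      √(Real.exp (-(2 * w 0 y)) * y 0 ^ 2 + Real.exp (-(2 * w 1 y)) * y 1 ^ 2) := by
  unfold nu
  simp only [inv_dg]
  have h1 : ∑ j, (if k = j then Real.exp (-(2 * w k y)) else 0) * drho y j =
      Real.exp (-(2 * w k y)) * drho y k := by
    rw [Finset.sum_eq_single k]
    · rw [if_pos rfl]
    · intro b _ hb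
      rw [if_neg (fun h => hb h.symm), zero_mul]
    · intro h
      exact absurd (Finset.mem_univ k) h
  have h2 : ∑ i, ∑ j, (if i = j then Real.exp (-(2 * w i y)) else 0) * drho y i * drho y j =
      Real.exp (-(2 * w 0 y)) * y 0 ^ 2 + Real.exp (-(2 * w 1 y)) * y 1 ^ 2 := by
    have h3 : ∀ i, ∑ j, (if i = j then Real.exp (-(2 * w i y)) else 0) * drho y i * drho y j =
        Real.exp (-(2 * w i y)) * drho y i * drho y i := by
      intro i
      rw [Finset.sum_eq_single i]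
      · rw [if_pos rfl]
      · intro b _ hb
        rw [if_neg (fun h => hb h.symm), zero_mul, zero_mul]
      · intro h
        exact absurd (Finset.mem_univ i) h
    simp only [h3]
    rw [sum2]
    simp only [drho_ss, drho_zero, drho_one, mul_zero, Finset.sum_const_zero, add_zero]
    ring
  rw [h1, h2]

/-- the normal field if the first two exponents are equal -/
theorem nu_dg' (w : Fin (m + 2) → (Fin (m + 2) → ℝ) → ℝ) (h01 : w 1 = w 0)
    (y : Fin (m + 2) → ℝ) :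
    nu (dg w) 0 y = Real.exp (-(w 0 y)) * (y 0 / √(y 0 ^ 2 + y 1 ^ 2)) ∧
    nu (dg w) 1 y = Real.exp (-(w 0 y)) * (y 1 / √(y 0 ^ 2 + y 1 ^ 2)) ∧
    ∀ i : Fin m, nu (dg w) i.succ.succ y = 0 := by
  have h1 : √(Real.exp (-(2 * w 0 y)) * y 0 ^ 2 + Real.exp (-(2 * w 1 y)) * y 1 ^ 2) =
      Real.exp (-(w 0 y)) * √(y 0 ^ 2 + y 1 ^ 2) := by
    rw [h01, ← mul_add, Real.sqrt_mul (Real.exp_pos _).le]
    congr 1
    have : Real.exp (-(2 * w 0 y)) = Real.exp (-(w 0 y)) ^ 2 := by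
      rw [← Real.exp_nat_mul]
      congr 1
      push_cast
      ring
    rw [this, Real.sqrt_sq (Real.exp_pos _).le]
  have h2 : Real.exp (-(2 * w 0 y)) = Real.exp (-(w 0 y)) * Real.exp (-(w 0 y)) := by
    rw [← Real.exp_add]
    congr 1
    ring
  have h3 : ∀ a r : ℝ, Real.exp (-(w 0 y)) * Real.exp (-(w 0 y)) * a /
      (Real.exp (-(w 0 y)) * r) = Real.exp (-(w 0 y)) * (a / r) := by
    intro a r
    rw [mul_assoc, mul_div_mul_left _ _ (Real.exp_pos _).ne', mul_div_assoc]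
  refine ⟨?_, ?_, ?_⟩
  · rw [nu_dg, h1, h2, drho_zero, h3]
  · rw [nu_dg, h1, h01, h2, drho_one, h3]
  · intro i
    rw [nu_dg, drho_ss, mul_zero, zero_div]

theorem pd_line {F : (Fin (m + 2) → ℝ) → ℝ} {y : Fin (m + 2) → ℝ} (k : Fin (m + 2)) {F' : ℝ}
    (hF : DifferentiableAt ℝ F y)
    (h : HasDerivAt (fun s : ℝ => F (y + s • Pi.single k 1)) F' 0) : pd k F y = F' := by
  have h1 : HasDerivAt (fun s : ℝ => y + s • (Pi.single k 1 : Fin (m + 2) → ℝ))
      (Pi.single k 1) 0 := by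
    have := ((hasDerivAt_id (0 : ℝ)).smul_const (Pi.single k 1 : Fin (m + 2) → ℝ)).const_add y
    simpa using this
  have h2 : HasFDerivAt F (fderiv ℝ F y) (y + (0 : ℝ) • (Pi.single k 1 : Fin (m + 2) → ℝ)) := by
    rw [zero_smul, add_zero]
    exact hF.hasFDerivAt
  have h3 := h2.comp_hasDerivAt (0 : ℝ) h1
  exact h3.unique h

theorem diff_coord (k : Fin (m + 2)) (y : Fin (m + 2) → ℝ) :
    DifferentiableAt ℝ (fun z : Fin (m + 2) → ℝ => z k) y := by fun_prop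

theorem pd_rad {y : Fin (m + 2) → ℝ} (hr : y 0 ^ 2 + y 1 ^ 2 = 1) :
    (DifferentiableAt ℝ (fun z : Fin (m + 2) → ℝ => z 0 / √(z 0 ^ 2 + z 1 ^ 2)) y ∧
      DifferentiableAt ℝ (fun z : Fin (m + 2) → ℝ => z 1 / √(z 0 ^ 2 + z 1 ^ 2)) y) ∧
    pd 0 (fun z : Fin (m + 2) → ℝ => z 0 / √(z 0 ^ 2 + z 1 ^ 2)) y = 1 - y 0 ^ 2 ∧
    pd 1 (fun z : Fin (m + 2) → ℝ => z 1 / √(z 0 ^ 2 + z 1 ^ 2)) y = 1 - y 1 ^ 2 := by
  have hd : DifferentiableAt ℝ (fun z : Fin (m + 2) → ℝ => √(z 0 ^ 2 + z 1 ^ 2)) y := by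
    apply DifferentiableAt.sqrt (by fun_prop)
    rw [hr]
    norm_num
  have hne : (fun z : Fin (m + 2) → ℝ => √(z 0 ^ 2 + z 1 ^ 2)) y ≠ 0 := by
    show √(y 0 ^ 2 + y 1 ^ 2) ≠ 0
    rw [hr]
    norm_num
  have hd0 : DifferentiableAt ℝ (fun z : Fin (m + 2) → ℝ => z 0 / √(z 0 ^ 2 + z 1 ^ 2)) y :=
    by
      simp only [div_eq_mul_inv]
      exact (diff_coord 0 y).fun_mul (hd.fun_inv hne)
  have hd1 : DifferentiableAt ℝ (fun z : Fin (m + 2) → ℝ => z 1 / √(z 0 ^ 2 + z 1 ^ 2)) y :=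
    by
      simp only [div_eq_mul_inv]
      exact (diff_coord 1 y).fun_mul (hd.fun_inv hne)
  have key : ∀ a b : ℝ, a ^ 2 + b ^ 2 = 1 →
      HasDerivAt (fun s : ℝ => (a + s) / √((a + s) ^ 2 + b ^ 2)) (1 - a ^ 2) 0 := by
    intro a b hab
    have h1 : HasDerivAt (fun s : ℝ => a + s) 1 0 := by
      simpa using (hasDerivAt_id (0 : ℝ)).const_add a
    have h2 : HasDerivAt (fun s : ℝ => (a + s) ^ 2 + b ^ 2) (2 * a) 0 := by
      have := (h1.pow 2).add_const (b ^ 2)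
      simpa using this
    have h3 : HasDerivAt (fun s : ℝ => √((a + s) ^ 2 + b ^ 2)) a 0 := by
      have := h2.sqrt (by simp [hab])
      simpa [hab] using this
    have h4 := h1.div h3 (by simp [hab])
    simp only [add_zero, hab, Real.sqrt_one] at h4
    have h5 : (1 * 1 - a * a) / (1 : ℝ) ^ 2 = 1 - a ^ 2 := by ring
    rw [h5] at h4
    exact h4
  refine ⟨⟨hd0, hd1⟩, ?_, ?_⟩
  · apply pd_line 0 hd0
    have e : (fun s : ℝ => (fun z : Fin (m + 2) → ℝ => z 0 / √(z 0 ^ 2 + z 1 ^ 2))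
        (y + s • Pi.single 0 1)) = fun s : ℝ => (y 0 + s) / √((y 0 + s) ^ 2 + y 1 ^ 2) := by
      funext s
      simp
    rw [e]
    exact key _ _ hr
  · apply pd_line 1 hd1
    have e : (fun s : ℝ => (fun z : Fin (m + 2) → ℝ => z 1 / √(z 0 ^ 2 + z 1 ^ 2))
        (y + s • Pi.single 1 1)) = fun s : ℝ => (y 1 + s) / √((y 1 + s) ^ 2 + y 0 ^ 2) := by
      funext s
      have e1 : ∀ a b : ℝ, a ^ 2 + b ^ 2 = b ^ 2 + a ^ 2 := fun a b => add_comm _ _
      simp [add_comm]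
    rw [e]
    exact key _ _ (by rw [add_comm]; exact hr)

theorem hmd : HmdStmt := by
  intro m φ f χ α β hφ hf hχ y hy
  have hr : y 0 ^ 2 + y 1 ^ 2 = 1 := by
    have h1 : ‖pr y‖ ^ 2 = 1 := by rw [hy]; norm_num
    rw [Complex.sq_norm, Complex.normSq_apply] at h1
    have h2 : (pr y).re = y 0 := rfl
    have h3 : (pr y).im = y 1 := rfl
    rw [h2, h3] at h1
    linarith
  have hφd : DifferentiableAt ℝ φ (pr y) := (hφ.differentiable (by simp)).differentiableAt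
  have hfd : ∀ i, DifferentiableAt ℝ (f i) (pr y) := fun i =>
    ((hf i).differentiable (by simp)).differentiableAt
  have hχd : DifferentiableAt ℝ (fun p : ℂ × (Fin m → ℝ) => χ p.1 p.2) (pr y, tl y) :=
    (hχ.differentiable (by simp)).differentiableAt
  obtain ⟨hUd, hU0, hU1⟩ := pd_exponent α hφd hχd
  set w := uu φ f χ α β with hw
  have hw0 : w 0 = fun y => φ (pr y) + α * χ (pr y) (tl y) := rfl
  have hw1 : w 1 = fun y => φ (pr y) + α * χ (pr y) (tl y) := rfl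
  have hw2 : ∀ i : Fin m, w i.succ.succ = fun y => f i (pr y) + β i * χ (pr y) (tl y) :=
    fun i => rfl
  have h01 : w 1 = w 0 := rfl
  have hwd : ∀ i, DifferentiableAt ℝ (w i) y := by
    intro i
    refine Fin.cases ?_ (fun i => ?_) i
    · exact hUd
    · refine Fin.cases ?_ (fun i => ?_) i
      · exact hUd
      · exact (pd_exponent (β i) (hfd i) hχd).1
  -- the trace of the Christoffel symbols
  have hch : ∀ k j, christoffel (dg w) k k j y = pd j (w k) y := by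
    intro k j
    rw [christoffel_dg w hwd]
    by_cases h : k = j
    · subst h
      simp
    · rw [if_neg h, if_pos rfl, if_neg h]
      ring
  have hn0 : nu (dg w) 0 = fun z => Real.exp (-(w 0 z)) * (z 0 / √(z 0 ^ 2 + z 1 ^ 2)) :=
    funext fun z => (nu_dg' w h01 z).1
  have hn1 : nu (dg w) 1 = fun z => Real.exp (-(w 0 z)) * (z 1 / √(z 0 ^ 2 + z 1 ^ 2)) :=
    funext fun z => (nu_dg' w h01 z).2.1
  have hn2 : ∀ i : Fin m, nu (dg w) i.succ.succ = fun _ => 0 := fun i =>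
    funext fun z => (nu_dg' w h01 z).2.2 i
  obtain ⟨⟨hd0, hd1⟩, hp0, hp1⟩ := pd_rad (m := m) hr
  have hsq : √(y 0 ^ 2 + y 1 ^ 2) = 1 := by rw [hr, Real.sqrt_one]
  have hwn : DifferentiableAt ℝ (fun z => -(w 0 z)) y := (hwd 0).neg
  have hpn : ∀ k, pd k (fun z => -(w 0 z)) y = -(pd k (w 0) y) := by
    intro k
    unfold pd
    rw [fderiv_fun_neg]
    rfl
  have hA0 : pd 0 (nu (dg w) 0) y = Real.exp (-(w 0 y)) * (1 - y 0 ^ 2 - y 0 * pd 0 (w 0) y) := by
    rw [hn0, pd_mul hwn.exp hd0, pd_exp hwn, hp0, hpn, hsq]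
    ring
  have hA1 : pd 1 (nu (dg w) 1) y = Real.exp (-(w 0 y)) * (1 - y 1 ^ 2 - y 1 * pd 1 (w 0) y) := by
    rw [hn1, pd_mul hwn.exp hd1, pd_exp hwn, hp1, hpn, hsq]
    ring
  have hA2 : ∀ i : Fin m, pd i.succ.succ (nu (dg w) i.succ.succ) y = 0 := by
    intro i
    rw [hn2, pd_const]
  have hv0 : nu (dg w) 0 y = Real.exp (-(w 0 y)) * y 0 := by
    rw [hn0]
    simp only [hsq, div_one]
  have hv1 : nu (dg w) 1 y = Real.exp (-(w 0 y)) * y 1 := by
    rw [hn1]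
    simp only [hsq, div_one]
  have hv2 : ∀ i : Fin m, nu (dg w) i.succ.succ y = 0 := fun i => by rw [hn2]
  have hB : ∀ k, ∑ j, christoffel (dg w) k k j y * nu (dg w) j y =
      Real.exp (-(w 0 y)) * (y 0 * pd 0 (w k) y + y 1 * pd 1 (w k) y) := by
    intro k
    rw [sum2]
    simp only [hch, hv0, hv1, hv2, mul_zero, Finset.sum_const_zero, add_zero]
    ring
  unfold meanCurv
  simp only [hB]
  rw [Finset.sum_add_distrib, sum2, sum2, hA0, hA1]
  simp only [hA2, Finset.sum_const_zero, add_zero]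
  have hq0 : ∀ i : Fin m, pd 0 (w i.succ.succ) y =
      dx (f i) (pr y) + β i * dx (fun z => χ z (tl y)) (pr y) := fun i =>
    (pd_exponent (β i) (hfd i) hχd).2.1
  have hq1 : ∀ i : Fin m, pd 1 (w i.succ.succ) y =
      dy (f i) (pr y) + β i * dy (fun z => χ z (tl y)) (pr y) := fun i =>
    (pd_exponent (β i) (hfd i) hχd).2.2
  simp only [hq0, hq1, h01]
  have hU0' : pd 0 (w 0) y = dx φ (pr y) + α * dx (fun z => χ z (tl y)) (pr y) := hU0
  have hU1' : pd 1 (w 0) y = dy φ (pr y) + α * dy (fun z => χ z (tl y)) (pr y) := hU1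
  rw [hU0', hU1']
  have hE : w 0 y = φ (pr y) + α * χ (pr y) (tl y) := rfl
  rw [hE, ← Finset.mul_sum]
  have hsum : ∑ i : Fin m, (y 0 * (dx (f i) (pr y) + β i * dx (fun z => χ z (tl y)) (pr y)) +
      y 1 * (dy (f i) (pr y) + β i * dy (fun z => χ z (tl y)) (pr y))) =
      ∑ j, rad (f j) (pr y) + (∑ j, β j) * rad (fun z => χ z (tl y)) (pr y) := by
    rw [Finset.sum_mul, ← Finset.sum_add_distrib]
    apply Finset.sum_congr rfl
    intro i _
    unfold rad
    have h2 : (pr y).re = y 0 := rfl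
    have h3 : (pr y).im = y 1 := rfl
    rw [h2, h3]
    simp only [smul_eq_mul]
    ring
  rw [hsum]
  have h2 : (pr y).re = y 0 := rfl
  have h3 : (pr y).im = y 1 := rfl
  have hradφ : rad φ (pr y) = y 0 * dx φ (pr y) + y 1 * dy φ (pr y) := by
    unfold rad
    rw [h2, h3]
    rfl
  have hradχ : rad (fun z => χ z (tl y)) (pr y) = y 0 * dx (fun z => χ z (tl y)) (pr y) +
      y 1 * dy (fun z => χ z (tl y)) (pr y) := by
    unfold rad
    rw [h2, h3]
    rfl
  rw [hradφ, hradχ]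
  linear_combination (-(Real.exp (-(φ (pr y) + α * χ (pr y) (tl y))))) * hr

end Pool.Agent.BCS.H46
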