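import Pool.Agent.BCS.Stmts2
import Pool.Agent.Helper46_BCS.HMD

/-!
Squad BCS (MP_fb4904_gt), row HMB: the mean curvature of the boundary, arbitrary fibre metrics.
-/

set_option autoImplicit false

noncomputable section

open scoped ContDiff Topology ComplexConjugate
open Set MeasureTheory

namespace Pool.Agent.BCS.H46

open Pool.Agent.SecondKind (Coord pd inv christoffel ricci)
open Pool.Agent.RLim.H58 (dg inv_dg christoffel_dg pd_mul pd_exp pd_const pd_const_mul)
open Pool.Agent.BCS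

variable {m : ℕ}

/-- Jacobi's formula -/
theorem det_hasFDerivAt {E : Type} [NormedAddCommGroup E] [NormedSpace ℝ E]
    {A : E → Matrix (Fin m) (Fin m) ℝ} {A' : Fin m → Fin m → E →L[ℝ] ℝ} {x : E}
    (h : ∀ i j, HasFDerivAt (fun x => A x i j) (A' i j) x) :
    HasFDerivAt (fun x => (A x).det) (∑ i, ∑ j, (A x).adjugate i j • A' j i) x := by
  have h1 : HasFDerivAt (fun x => ∑ σ : Equiv.Perm (Fin m),
      ((Equiv.Perm.sign σ : ℤ) : ℝ) * ∏ i, A x (σ i) i)
      (∑ σ : Equiv.Perm (Fin m), ((Equiv.Perm.sign σ : ℤ) : ℝ) •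
        ∑ i, (∏ j ∈ Finset.univ.erase i, A x (σ j) j) • A' (σ i) i) x := by
    apply HasFDerivAt.fun_sum
    intro σ _
    apply HasFDerivAt.const_mul
    exact HasFDerivAt.finsetProd (fun i _ => h (σ i) i)
  have h2 : (fun x => (A x).det) = fun x => ∑ σ : Equiv.Perm (Fin m),
      ((Equiv.Perm.sign σ : ℤ) : ℝ) * ∏ i, A x (σ i) i := by
    funext x
    rw [Matrix.det_apply']
  rw [h2]
  refine h1.congr_fderiv ?_
  ext v
  simp only [sum_apply, smul_apply, smul_eq_mul]
  have h3 : ∀ i : Fin m, ∑ j, (A x).adjugate i j * (A' j i) v =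
      ∑ σ : Equiv.Perm (Fin m), ((Equiv.Perm.sign σ : ℤ) : ℝ) *
        ((∏ j ∈ Finset.univ.erase i, A x (σ j) j) * A' (σ i) i v) := by
    intro i
    have h4 : ∑ j, (A x).adjugate i j * (A' j i) v =
        ((A x).updateCol i (fun j => A' j i v)).det := by
      rw [← Matrix.cramer_apply, Matrix.cramer_eq_adjugate_mulVec]
      rfl
    rw [h4, Matrix.det_apply']
    apply Finset.sum_congr rfl
    intro σ _
    congr 1
    rw [← Finset.mul_prod_erase Finset.univ _ (Finset.mem_univ i), mul_comm]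
    congr 1
    · apply Finset.prod_congr rfl
      intro j hj
      rw [Matrix.updateCol_ne (Finset.ne_of_mem_erase hj)]
    · rw [Matrix.updateCol_self]
  simp only [h3]
  rw [Finset.sum_comm]
  apply Finset.sum_congr rfl
  intro σ _
  rw [Finset.mul_sum]

theorem det_ne {h : ℂ → Coord m} (hh : FibM h) (z : ℂ) (t : Fin m → ℝ) :
    (Matrix.of (h z t)).det ≠ 0 := by
  intro h0
  obtain ⟨v, hv, hv0⟩ := Matrix.exists_mulVec_eq_zero_iff.2 h0
  have h1 := hh.pos z t v hv
  have h2 : ∑ i, ∑ j, h z t i j * v i * v j = 0 := by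
    apply Finset.sum_eq_zero
    intro i _
    have h3 : (Matrix.of (h z t)).mulVec v i = 0 := by
      rw [hv0]
      rfl
    have h4 : ∑ j, h z t i j * v j = 0 := h3
    have h5 : ∑ j, h z t i j * v i * v j = v i * ∑ j, h z t i j * v j := by
      rw [Finset.mul_sum]
      apply Finset.sum_congr rfl
      intro j _
      ring
    rw [h5, h4, mul_zero]
  linarith

theorem slice {h : ℂ → Coord m} (hh : FibM h) (z : ℂ) (t : Fin m → ℝ) (i j : Fin m) :
    DifferentiableAt ℝ (fun z => h z t i j) z := by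
  have h1 : Differentiable ℝ (fun p : ℂ × (Fin m → ℝ) => h p.1 p.2 i j) :=
    (hh.smooth i j).differentiable (by simp)
  have h2 : HasFDerivAt (fun z : ℂ => (z, t)) (ContinuousLinearMap.inl ℝ ℂ (Fin m → ℝ)) z :=
    hasFDerivAt_prodMk_left z t
  exact ((h1 (z, t)).hasFDerivAt.comp z h2).differentiableAt

/-- the derivative of `log √det h` -/
theorem lvol_hasFDerivAt {h : ℂ → Coord m} (hh : FibM h) (z : ℂ) (t : Fin m → ℝ) (v : ℂ) :
    fderiv ℝ (fun z => lvol h z t) z v =
      1 / 2 * ∑ i, ∑ j, (Matrix.of (h z t))⁻¹ i j * fderiv ℝ (fun z => h z t i j) z v := by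
  have h1 : HasFDerivAt (fun z => (Matrix.of (h z t)).det)
      (∑ i, ∑ j, (Matrix.of (h z t)).adjugate i j • fderiv ℝ (fun z => h z t j i) z) z :=
    det_hasFDerivAt (A := fun z => Matrix.of (h z t))
      (fun i j => (slice hh z t i j).hasFDerivAt)
  have h2 := (h1.log (det_ne hh z t)).mul_const (1 / 2 : ℝ)
  have h3 : (fun z => Real.log (Matrix.of (h z t)).det * (1 / 2)) = fun z => lvol h z t := by
    funext z
    unfold lvol
    ring
  rw [h3] at h2
  rw [h2.fderiv]
  simp only [smul_apply, sum_apply, smul_eq_mul]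
  have h4 : ∀ i j, (Matrix.of (h z t))⁻¹ i j =
      ((Matrix.of (h z t)).det)⁻¹ * (Matrix.of (h z t)).adjugate i j := by
    intro i j
    rw [Matrix.inv_def, Ring.inverse_eq_inv', Matrix.smul_apply, smul_eq_mul]
  have h5 : ∀ i j, (fun z => h z t j i) = fun z => h z t i j := by
    intro i j
    funext z
    exact hh.symm z t j i
  congr 1
  rw [Finset.mul_sum]
  apply Finset.sum_congr rfl
  intro i _
  rw [Finset.mul_sum]
  apply Finset.sum_congr rfl
  intro j _
  rw [h4, h5 i j]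
  ring

@[elab_as_elim]
theorem fc {Q : Fin (m + 2) → Prop} (h0 : Q 0) (h1 : Q 1) (hs : ∀ i : Fin m, Q i.succ.succ)
    (k : Fin (m + 2)) : Q k := by
  refine Fin.cases h0 (fun i => ?_) k
  refine Fin.cases h1 (fun i => ?_) i
  exact hs i

section entries

variable (φ : ℂ → ℝ) (h : ℂ → Coord m) (y : Fin (m + 2) → ℝ) (i j : Fin m)

theorem blk_00 : blk φ h y 0 0 = Real.exp (2 * φ (pr y)) := rfl
theorem blk_01 : blk φ h y 0 1 = 0 := rfl
theorem blk_0s : blk φ h y 0 i.succ.succ = 0 := rfl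
theorem blk_10 : blk φ h y 1 0 = 0 := rfl
theorem blk_11 : blk φ h y 1 1 = Real.exp (2 * φ (pr y)) := rfl
theorem blk_1s : blk φ h y 1 i.succ.succ = 0 := rfl
theorem blk_s0 : blk φ h y i.succ.succ 0 = 0 := rfl
theorem blk_s1 : blk φ h y i.succ.succ 1 = 0 := rfl
theorem blk_ss : blk φ h y i.succ.succ j.succ.succ = h (pr y) (tl y) i j := rfl

end entries

/-- the inverse of the fibre metric -/
def hinv (h : ℂ → Coord m) : ℂ → Coord m := fun z t i j => (Matrix.of (h z t))⁻¹ i j

theorem hinv_apply (h : ℂ → Coord m) (z : ℂ) (t : Fin m → ℝ) (i j : Fin m) :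
    hinv h z t i j = (Matrix.of (h z t))⁻¹ i j := rfl

theorem one_ne_zero' : ¬ ((1 : Fin (m + 2)) = 0) := by
  intro h
  have := congrArg Fin.val h
  simp at this

/-- the inverse of the block metric -/
theorem inv_blk (φ : ℂ → ℝ) {h : ℂ → Coord m} (hh : FibM h) (k l : Fin (m + 2))
    (y : Fin (m + 2) → ℝ) :
    inv (blk φ h) k l y =
      blk (fun z => -φ z) (hinv h) y k l := by
  unfold inv
  have h1 : (Matrix.of (blk φ h y))⁻¹ =
      Matrix.of (blk (fun z => -φ z) (hinv h) y) := by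
    apply Matrix.inv_eq_left_inv
    have he : Real.exp (2 * -φ (pr y)) * Real.exp (2 * φ (pr y)) = 1 := by
      rw [← Real.exp_add]
      simp
    have hI := Matrix.nonsing_inv_mul (Matrix.of (h (pr y) (tl y)))
      (isUnit_iff_ne_zero.2 (det_ne hh _ _))
    ext k l
    rw [Matrix.mul_apply, sum2]
    simp only [Matrix.of_apply]
    revert l
    refine fc ?_ ?_ ?_ k
    · intro l
      refine fc ?_ ?_ ?_ l
      · simp only [blk_00, blk_01, blk_0s, blk_10, blk_s0, he, Matrix.one_apply_eq, zero_mul,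
          Finset.sum_const_zero, add_zero]
      · simp [blk_00, blk_01, blk_0s, blk_11, blk_s1]
      · intro j
        rw [Matrix.one_apply_ne (Fin.succ_ne_zero _).symm]
        simp [blk_00, blk_01, blk_0s, blk_1s]
    · intro l
      refine fc ?_ ?_ ?_ l
      · rw [Matrix.one_apply_ne one_ne_zero']
        simp [blk_10, blk_11, blk_1s]
      · simp only [blk_10, blk_11, blk_1s, blk_01, blk_s1, he, Matrix.one_apply_eq, zero_mul,
          Finset.sum_const_zero, add_zero, zero_add]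
      · intro j
        rw [Matrix.one_apply_ne (fun hc => succ_ne_one j hc.symm)]
        simp [blk_10, blk_11, blk_1s]
    · intro i l
      refine fc ?_ ?_ ?_ l
      · rw [Matrix.one_apply_ne (Fin.succ_ne_zero _)]
        simp [blk_s0, blk_s1]
      · rw [Matrix.one_apply_ne (succ_ne_one i)]
        simp [blk_s0, blk_s1]
      · intro j
        have h2 := congrFun (congrFun hI i) j
        rw [Matrix.mul_apply] at h2
        simp only [Matrix.of_apply] at h2
        simp only [blk_s0, blk_s1, blk_ss, hinv_apply, zero_mul, zero_add]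
        rw [h2]
        simp only [Matrix.one_apply, Fin.succ_inj]
  rw [h1]
  rfl

/-- the normal field -/
theorem nu_blk (φ : ℂ → ℝ) {h : ℂ → Coord m} (hh : FibM h) (y : Fin (m + 2) → ℝ) :
    nu (blk φ h) 0 y = Real.exp (-(φ (pr y))) * (y 0 / √(y 0 ^ 2 + y 1 ^ 2)) ∧
    nu (blk φ h) 1 y = Real.exp (-(φ (pr y))) * (y 1 / √(y 0 ^ 2 + y 1 ^ 2)) ∧
    ∀ i : Fin m, nu (blk φ h) i.succ.succ y = 0 := by
  have hD : √(∑ i, ∑ j, inv (blk φ h) i j y * drho y i * drho y j) =
      Real.exp (-(φ (pr y))) * √(y 0 ^ 2 + y 1 ^ 2) := by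
    have h1 : ∑ i, ∑ j, inv (blk φ h) i j y * drho y i * drho y j =
        Real.exp (-(φ (pr y))) ^ 2 * (y 0 ^ 2 + y 1 ^ 2) := by
      have h2 : Real.exp (2 * -φ (pr y)) = Real.exp (-(φ (pr y))) ^ 2 := by
        rw [← Real.exp_nat_mul]
        congr 1
      simp only [inv_blk φ hh]
      simp only [sum2, drho_ss, drho_zero, drho_one, mul_zero, zero_mul, Finset.sum_const_zero,
        add_zero, blk_00, blk_01, blk_10, blk_11, h2]
      ring
    rw [h1, Real.sqrt_mul (by positivity), Real.sqrt_sq (Real.exp_pos _).le]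
  have h2 : Real.exp (2 * -φ (pr y)) = Real.exp (-(φ (pr y))) * Real.exp (-(φ (pr y))) := by
    rw [← Real.exp_add]
    congr 1
    ring
  have h3 : ∀ a r : ℝ, Real.exp (-(φ (pr y))) * Real.exp (-(φ (pr y))) * a /
      (Real.exp (-(φ (pr y))) * r) = Real.exp (-(φ (pr y))) * (a / r) := by
    intro a r
    rw [mul_assoc, mul_div_mul_left _ _ (Real.exp_pos _).ne', mul_div_assoc]
  refine ⟨?_, ?_, ?_⟩
  · unfold nu
    rw [hD, sum2]
    simp only [inv_blk φ hh, drho_ss, drho_zero, drho_one, mul_zero, zero_mul,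
      Finset.sum_const_zero, add_zero, blk_00, blk_01, h2]
    rw [h3]
  · unfold nu
    rw [hD, sum2]
    simp only [inv_blk φ hh, drho_ss, drho_zero, drho_one, mul_zero, zero_mul,
      Finset.sum_const_zero, add_zero, zero_add, blk_10, blk_11, h2]
    rw [h3]
  · intro i
    unfold nu
    rw [sum2]
    simp only [inv_blk φ hh, drho_ss, drho_zero, drho_one, mul_zero, zero_mul,
      Finset.sum_const_zero, add_zero, blk_s0, blk_s1, zero_div]

theorem pd_chi' {χ : ℂ → (Fin m → ℝ) → ℝ} {y : Fin (m + 2) → ℝ}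
    (h : DifferentiableAt ℝ (fun p : ℂ × (Fin m → ℝ) => χ p.1 p.2) (pr y, tl y)) :
    pd 0 (fun y => χ (pr y) (tl y)) y = dx (fun z => χ z (tl y)) (pr y) ∧
    pd 1 (fun y => χ (pr y) (tl y)) y = dy (fun z => χ z (tl y)) (pr y) := by
  constructor
  · unfold pd dx
    rw [(pd_chi h).fderiv, dchi h]
    simp [P_single0, T_single0]
  · unfold pd dy
    rw [(pd_chi h).fderiv, dchi h]
    simp [P_single1, T_single1]

theorem pd_pr' {φ : ℂ → ℝ} {y : Fin (m + 2) → ℝ} (h : DifferentiableAt ℝ φ (pr y)) :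
    pd 0 (fun y => φ (pr y)) y = dx φ (pr y) ∧ pd 1 (fun y => φ (pr y)) y = dy φ (pr y) := by
  constructor
  · unfold pd dx
    rw [(pd_pr h).fderiv]
    simp [P_single0]
  · unfold pd dy
    rw [(pd_pr h).fderiv]
    simp [P_single1]

theorem hmb : HmbStmt := by
  intro m φ h hφ hh y hy
  have hr : y 0 ^ 2 + y 1 ^ 2 = 1 := by
    have h1 : ‖pr y‖ ^ 2 = 1 := by rw [hy]; norm_num
    rw [Complex.sq_norm, Complex.normSq_apply] at h1
    have h2 : (pr y).re = y 0 := rfl
    have h3 : (pr y).im = y 1 := rfl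
    rw [h2, h3] at h1
    linarith
  have hφd : DifferentiableAt ℝ φ (pr y) := (hφ.differentiable (by simp)).differentiableAt
  have hUd : DifferentiableAt ℝ (fun y : Fin (m + 2) → ℝ => φ (pr y)) y :=
    (pd_pr hφd).differentiableAt
  have hχd : ∀ i j, DifferentiableAt ℝ (fun p : ℂ × (Fin m → ℝ) => h p.1 p.2 i j)
      (pr y, tl y) := fun i j => ((hh.smooth i j).differentiable (by simp)).differentiableAt
  obtain ⟨hU0, hU1⟩ := pd_pr' hφd
  -- the derivatives of the entry `exp (2 φ)`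
  have hE : ∀ k : Fin (m + 2), pd k (fun y : Fin (m + 2) → ℝ => Real.exp (2 * φ (pr y))) y =
      Real.exp (2 * φ (pr y)) * (2 * pd k (fun y : Fin (m + 2) → ℝ => φ (pr y)) y) := by
    intro k
    rw [pd_exp (f := fun y : Fin (m + 2) → ℝ => 2 * φ (pr y)) (hUd.const_mul 2),
      pd_const_mul 2 hUd]
  have he : Real.exp (2 * -φ (pr y)) * Real.exp (2 * φ (pr y)) = 1 := by
    rw [← Real.exp_add]
    simp
  set H := (Matrix.of (h (pr y) (tl y)))⁻¹ with hH
  -- the traces of the Christoffel symbols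
  have hT0 : ∑ k, christoffel (blk φ h) k k 0 y = 2 * dx φ (pr y) +
      dx (fun z => lvol h z (tl y)) (pr y) := by
    have hL : dx (fun z => lvol h z (tl y)) (pr y) =
        1 / 2 * ∑ i, ∑ j, H i j * dx (fun z => h z (tl y) i j) (pr y) :=
      lvol_hasFDerivAt hh (pr y) (tl y) 1
    have hX : ∀ i j, pd 0 (fun z : Fin (m + 2) → ℝ => h (pr z) (tl z) i j) y =
        dx (fun z => h z (tl y) i j) (pr y) := fun i j =>
      (pd_chi' (χ := fun z t => h z t i j) (hχd i j)).1
    unfold christoffel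
    simp only [inv_blk φ hh, sum2, blk_00, blk_01, blk_0s, blk_10, blk_11, blk_1s, blk_s0, blk_s1,
      blk_ss, hinv_apply, pd_const, hX, hE, hU0, zero_mul, zero_div, add_zero, zero_add, sub_zero,
      Finset.sum_const_zero]
    rw [hL, Finset.mul_sum]
    have h5 : ∑ i : Fin m, ∑ j : Fin m, (Matrix.of (h (pr y) (tl y)))⁻¹ i j *
        dx (fun z => h z (tl y) i j) (pr y) / 2 =
        ∑ i : Fin m, 1 / 2 * ∑ j : Fin m, H i j * dx (fun z => h z (tl y) i j) (pr y) := by
      apply Finset.sum_congr rfl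
      intro i _
      rw [Finset.mul_sum]
      apply Finset.sum_congr rfl
      intro j _
      rw [hH]
      ring
    rw [h5]
    linear_combination (2 * dx φ (pr y)) * he
  have hT1 : ∑ k, christoffel (blk φ h) k k 1 y = 2 * dy φ (pr y) +
      dy (fun z => lvol h z (tl y)) (pr y) := by
    have hL : dy (fun z => lvol h z (tl y)) (pr y) =
        1 / 2 * ∑ i, ∑ j, H i j * dy (fun z => h z (tl y) i j) (pr y) :=
      lvol_hasFDerivAt hh (pr y) (tl y) Complex.I
    have hX : ∀ i j, pd 1 (fun z : Fin (m + 2) → ℝ => h (pr z) (tl z) i j) y =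
        dy (fun z => h z (tl y) i j) (pr y) := fun i j =>
      (pd_chi' (χ := fun z t => h z t i j) (hχd i j)).2
    unfold christoffel
    simp only [inv_blk φ hh, sum2, blk_00, blk_01, blk_0s, blk_10, blk_11, blk_1s, blk_s0, blk_s1,
      blk_ss, hinv_apply, pd_const, hX, hE, hU1, zero_mul, zero_div, add_zero, zero_add, sub_zero,
      Finset.sum_const_zero]
    rw [hL, Finset.mul_sum]
    have h5 : ∑ i : Fin m, ∑ j : Fin m, (Matrix.of (h (pr y) (tl y)))⁻¹ i j *
        dy (fun z => h z (tl y) i j) (pr y) / 2 =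
        ∑ i : Fin m, 1 / 2 * ∑ j : Fin m, H i j * dy (fun z => h z (tl y) i j) (pr y) := by
      apply Finset.sum_congr rfl
      intro i _
      rw [Finset.mul_sum]
      apply Finset.sum_congr rfl
      intro j _
      rw [hH]
      ring
    rw [h5]
    linear_combination (2 * dy φ (pr y)) * he
  -- the normal field
  have hn0 : nu (blk φ h) 0 = fun z => Real.exp (-(φ (pr z))) * (z 0 / √(z 0 ^ 2 + z 1 ^ 2)) :=
    funext fun z => (nu_blk φ hh z).1
  have hn1 : nu (blk φ h) 1 = fun z => Real.exp (-(φ (pr z))) * (z 1 / √(z 0 ^ 2 + z 1 ^ 2)) :=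
    funext fun z => (nu_blk φ hh z).2.1
  have hn2 : ∀ i : Fin m, nu (blk φ h) i.succ.succ = fun _ => 0 := fun i =>
    funext fun z => (nu_blk φ hh z).2.2 i
  obtain ⟨⟨hd0, hd1⟩, hp0, hp1⟩ := pd_rad (m := m) hr
  have hsq : √(y 0 ^ 2 + y 1 ^ 2) = 1 := by rw [hr, Real.sqrt_one]
  have hwn : DifferentiableAt ℝ (fun z : Fin (m + 2) → ℝ => -(φ (pr z))) y := hUd.neg
  have hpn : ∀ k, pd k (fun z : Fin (m + 2) → ℝ => -(φ (pr z))) y =
      -(pd k (fun z : Fin (m + 2) → ℝ => φ (pr z)) y) := by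
    intro k
    unfold pd
    rw [fderiv_fun_neg]
    rfl
  have hA0 : pd 0 (nu (blk φ h) 0) y =
      Real.exp (-(φ (pr y))) * (1 - y 0 ^ 2 - y 0 * dx φ (pr y)) := by
    rw [hn0, pd_mul hwn.exp hd0, pd_exp hwn, hp0, hpn, hsq, hU0]
    ring
  have hA1 : pd 1 (nu (blk φ h) 1) y =
      Real.exp (-(φ (pr y))) * (1 - y 1 ^ 2 - y 1 * dy φ (pr y)) := by
    rw [hn1, pd_mul hwn.exp hd1, pd_exp hwn, hp1, hpn, hsq, hU1]
    ring
  have hA2 : ∀ i : Fin m, pd i.succ.succ (nu (blk φ h) i.succ.succ) y = 0 := by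
    intro i
    rw [hn2, pd_const]
  have hv0 : nu (blk φ h) 0 y = Real.exp (-(φ (pr y))) * y 0 := by
    rw [hn0]
    simp only [hsq, div_one]
  have hv1 : nu (blk φ h) 1 y = Real.exp (-(φ (pr y))) * y 1 := by
    rw [hn1]
    simp only [hsq, div_one]
  have hv2 : ∀ i : Fin m, nu (blk φ h) i.succ.succ y = 0 := fun i => by rw [hn2]
  have hB : ∑ k, ∑ j, christoffel (blk φ h) k k j y * nu (blk φ h) j y =
      (2 * dx φ (pr y) + dx (fun z => lvol h z (tl y)) (pr y)) *
        (Real.exp (-(φ (pr y))) * y 0) +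
      (2 * dy φ (pr y) + dy (fun z => lvol h z (tl y)) (pr y)) *
        (Real.exp (-(φ (pr y))) * y 1) := by
    rw [Finset.sum_comm, sum2]
    simp only [hv0, hv1, hv2, mul_zero, Finset.sum_const_zero, add_zero]
    rw [← Finset.sum_mul, ← Finset.sum_mul, hT0, hT1]
  unfold meanCurv
  rw [Finset.sum_add_distrib, hB, sum2, hA0, hA1]
  simp only [hA2, Finset.sum_const_zero, add_zero]
  have h2 : (pr y).re = y 0 := rfl
  have h3 : (pr y).im = y 1 := rfl
  have hradφ : rad φ (pr y) = y 0 * dx φ (pr y) + y 1 * dy φ (pr y) := by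
    unfold rad
    rw [h2, h3]
    rfl
  have hradχ : rad (fun z => lvol h z (tl y)) (pr y) =
      y 0 * dx (fun z => lvol h z (tl y)) (pr y) +
      y 1 * dy (fun z => lvol h z (tl y)) (pr y) := by
    unfold rad
    rw [h2, h3]
    rfl
  rw [hradφ, hradχ]
  linear_combination (-(Real.exp (-(φ (pr y))))) * hr

end Pool.Agent.BCS.H46
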