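import Pool.Agent.BCS.Stmts3
import Pool.Agent.Helper46_BCS.HMB

/-!
Squad BCS (MP_fb4904_gt), row HM3: the mean curvature of the boundary, base factor depending on the
fibre variables.
-/

set_option autoImplicit false

noncomputable section

open scoped ContDiff Topology ComplexConjugate
open Set MeasureTheory

namespace Pool.Agent.BCS.H46

open Pool.Agent.SecondKind (Coord pd inv christoffel ricci)
open Pool.Agent.RLim.H58 (dg inv_dg christoffel_dg pd_mul pd_exp pd_const pd_const_mul)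
open Pool.Agent.BCS

variable {m : ℕ}

section entries

variable (U : ℂ → (Fin m → ℝ) → ℝ) (h : ℂ → Coord m) (y : Fin (m + 2) → ℝ) (i j : Fin m)

theorem blkU_00 : blkU U h y 0 0 = Real.exp (2 * U (pr y) (tl y)) := rfl
theorem blkU_01 : blkU U h y 0 1 = 0 := rfl
theorem blkU_0s : blkU U h y 0 i.succ.succ = 0 := rfl
theorem blkU_10 : blkU U h y 1 0 = 0 := rfl
theorem blkU_11 : blkU U h y 1 1 = Real.exp (2 * U (pr y) (tl y)) := rfl
theorem blkU_1s : blkU U h y 1 i.succ.succ = 0 := rfl
theorem blkU_s0 : blkU U h y i.succ.succ 0 = 0 := rfl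
theorem blkU_s1 : blkU U h y i.succ.succ 1 = 0 := rfl
theorem blkU_ss : blkU U h y i.succ.succ j.succ.succ = h (pr y) (tl y) i j := rfl

end entries

/-- the inverse of the block metric -/
theorem inv_blkU (U : ℂ → (Fin m → ℝ) → ℝ) {h : ℂ → Coord m} (hh : FibM h) (k l : Fin (m + 2))
    (y : Fin (m + 2) → ℝ) :
    inv (blkU U h) k l y =
      blkU (fun z t => -U z t) (hinv h) y k l := by
  unfold inv
  have h1 : (Matrix.of (blkU U h y))⁻¹ =
      Matrix.of (blkU (fun z t => -U z t) (hinv h) y) := by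
    apply Matrix.inv_eq_left_inv
    have he : Real.exp (2 * -U (pr y) (tl y)) * Real.exp (2 * U (pr y) (tl y)) = 1 := by
      rw [← Real.exp_add]
      simp
    have hI := Matrix.nonsing_inv_mul (Matrix.of (h (pr y) (tl y)))
      (isUnit_iff_ne_zero.2 (det_ne hh _ _))
    ext k l
    rw [Matrix.mul_apply, sum2]
    simp only [Matrix.of_apply]
    revert l
    refine fc ?_ ?_ ?_ k
    · intro l
      refine fc ?_ ?_ ?_ l
      · simp only [blkU_00, blkU_01, blkU_0s, blkU_10, blkU_s0, he, Matrix.one_apply_eq, zero_mul,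
          Finset.sum_const_zero, add_zero]
      · simp [blkU_00, blkU_01, blkU_0s, blkU_11, blkU_s1]
      · intro j
        rw [Matrix.one_apply_ne (Fin.succ_ne_zero _).symm]
        simp [blkU_00, blkU_01, blkU_0s, blkU_1s]
    · intro l
      refine fc ?_ ?_ ?_ l
      · rw [Matrix.one_apply_ne one_ne_zero']
        simp [blkU_10, blkU_11, blkU_1s]
      · simp only [blkU_10, blkU_11, blkU_1s, blkU_01, blkU_s1, he, Matrix.one_apply_eq, zero_mul,
          Finset.sum_const_zero, add_zero, zero_add]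
      · intro j
        rw [Matrix.one_apply_ne (fun hc => succ_ne_one j hc.symm)]
        simp [blkU_10, blkU_11, blkU_1s]
    · intro i l
      refine fc ?_ ?_ ?_ l
      · rw [Matrix.one_apply_ne (Fin.succ_ne_zero _)]
        simp [blkU_s0, blkU_s1]
      · rw [Matrix.one_apply_ne (succ_ne_one i)]
        simp [blkU_s0, blkU_s1]
      · intro j
        have h2 := congrFun (congrFun hI i) j
        rw [Matrix.mul_apply] at h2
        simp only [Matrix.of_apply] at h2
        simp only [blkU_s0, blkU_s1, blkU_ss, hinv_apply, zero_mul, zero_add]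
        rw [h2]
        simp only [Matrix.one_apply, Fin.succ_inj]
  rw [h1]
  rfl

/-- the normal field -/
theorem nu_blkU (U : ℂ → (Fin m → ℝ) → ℝ) {h : ℂ → Coord m} (hh : FibM h) (y : Fin (m + 2) → ℝ) :
    nu (blkU U h) 0 y = Real.exp (-(U (pr y) (tl y))) * (y 0 / √(y 0 ^ 2 + y 1 ^ 2)) ∧
    nu (blkU U h) 1 y = Real.exp (-(U (pr y) (tl y))) * (y 1 / √(y 0 ^ 2 + y 1 ^ 2)) ∧
    ∀ i : Fin m, nu (blkU U h) i.succ.succ y = 0 := by
  have hD : √(∑ i, ∑ j, inv (blkU U h) i j y * drho y i * drho y j) =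
      Real.exp (-(U (pr y) (tl y))) * √(y 0 ^ 2 + y 1 ^ 2) := by
    have h1 : ∑ i, ∑ j, inv (blkU U h) i j y * drho y i * drho y j =
        Real.exp (-(U (pr y) (tl y))) ^ 2 * (y 0 ^ 2 + y 1 ^ 2) := by
      have h2 : Real.exp (2 * -U (pr y) (tl y)) = Real.exp (-(U (pr y) (tl y))) ^ 2 := by
        rw [← Real.exp_nat_mul]
        congr 1
      simp only [inv_blkU U hh]
      simp only [sum2, drho_ss, drho_zero, drho_one, mul_zero, zero_mul, Finset.sum_const_zero,
        add_zero, blkU_00, blkU_01, blkU_10, blkU_11, h2]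
      ring
    rw [h1, Real.sqrt_mul (by positivity), Real.sqrt_sq (Real.exp_pos _).le]
  have h2 : Real.exp (2 * -U (pr y) (tl y)) = Real.exp (-(U (pr y) (tl y))) * Real.exp (-(U (pr y) (tl y))) := by
    rw [← Real.exp_add]
    congr 1
    ring
  have h3 : ∀ a r : ℝ, Real.exp (-(U (pr y) (tl y))) * Real.exp (-(U (pr y) (tl y))) * a /
      (Real.exp (-(U (pr y) (tl y))) * r) = Real.exp (-(U (pr y) (tl y))) * (a / r) := by
    intro a r
    rw [mul_assoc, mul_div_mul_left _ _ (Real.exp_pos _).ne', mul_div_assoc]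
  refine ⟨?_, ?_, ?_⟩
  · unfold nu
    rw [hD, sum2]
    simp only [inv_blkU U hh, drho_ss, drho_zero, drho_one, mul_zero, zero_mul,
      Finset.sum_const_zero, add_zero, blkU_00, blkU_01, h2]
    rw [h3]
  · unfold nu
    rw [hD, sum2]
    simp only [inv_blkU U hh, drho_ss, drho_zero, drho_one, mul_zero, zero_mul,
      Finset.sum_const_zero, add_zero, zero_add, blkU_10, blkU_11, h2]
    rw [h3]
  · intro i
    unfold nu
    rw [sum2]
    simp only [inv_blkU U hh, drho_ss, drho_zero, drho_one, mul_zero, zero_mul,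
      Finset.sum_const_zero, add_zero, blkU_s0, blkU_s1, zero_div]

theorem hm3 : Hm3Stmt := by
  intro m U h hU hh y hy
  have hr : y 0 ^ 2 + y 1 ^ 2 = 1 := by
    have h1 : ‖pr y‖ ^ 2 = 1 := by rw [hy]; norm_num
    rw [Complex.sq_norm, Complex.normSq_apply] at h1
    have h2 : (pr y).re = y 0 := rfl
    have h3 : (pr y).im = y 1 := rfl
    rw [h2, h3] at h1
    linarith
  have hφd : DifferentiableAt ℝ (fun p : ℂ × (Fin m → ℝ) => U p.1 p.2) (pr y, tl y) :=
    (hU.differentiable (by simp)).differentiableAt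
  have hUd : DifferentiableAt ℝ (fun y : Fin (m + 2) → ℝ => U (pr y) (tl y)) y :=
    (pd_chi hφd).differentiableAt
  have hχd : ∀ i j, DifferentiableAt ℝ (fun p : ℂ × (Fin m → ℝ) => h p.1 p.2 i j)
      (pr y, tl y) := fun i j => ((hh.smooth i j).differentiable (by simp)).differentiableAt
  obtain ⟨hU0, hU1⟩ := pd_chi' (χ := U) hφd
  -- the derivatives of the entry `exp (2 φ)`
  have hE : ∀ k : Fin (m + 2), pd k (fun y : Fin (m + 2) → ℝ => Real.exp (2 * U (pr y) (tl y))) y =
      Real.exp (2 * U (pr y) (tl y)) * (2 * pd k (fun y : Fin (m + 2) → ℝ => U (pr y) (tl y)) y) := by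
    intro k
    rw [pd_exp (f := fun y : Fin (m + 2) → ℝ => 2 * U (pr y) (tl y)) (hUd.const_mul 2),
      pd_const_mul 2 hUd]
  have he : Real.exp (2 * -U (pr y) (tl y)) * Real.exp (2 * U (pr y) (tl y)) = 1 := by
    rw [← Real.exp_add]
    simp
  set H := (Matrix.of (h (pr y) (tl y)))⁻¹ with hH
  -- the traces of the Christoffel symbols
  have hT0 : ∑ k, christoffel (blkU U h) k k 0 y = 2 * dx (fun z => U z (tl y)) (pr y) +
      dx (fun z => lvol h z (tl y)) (pr y) := by
    have hL : dx (fun z => lvol h z (tl y)) (pr y) =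
        1 / 2 * ∑ i, ∑ j, H i j * dx (fun z => h z (tl y) i j) (pr y) :=
      lvol_hasFDerivAt hh (pr y) (tl y) 1
    have hX : ∀ i j, pd 0 (fun z : Fin (m + 2) → ℝ => h (pr z) (tl z) i j) y =
        dx (fun z => h z (tl y) i j) (pr y) := fun i j =>
      (pd_chi' (χ := fun z t => h z t i j) (hχd i j)).1
    unfold christoffel
    simp only [inv_blkU U hh, sum2, blkU_00, blkU_01, blkU_0s, blkU_10, blkU_11, blkU_1s, blkU_s0, blkU_s1,
      blkU_ss, hinv_apply, pd_const, hX, hE, hU0, zero_mul, zero_div, add_zero, zero_add, sub_zero,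
      Finset.sum_const_zero]
    rw [hL, Finset.mul_sum]
    have h5 : ∑ i : Fin m, ∑ j : Fin m, (Matrix.of (h (pr y) (tl y)))⁻¹ i j *
        dx (fun z => h z (tl y) i j) (pr y) / 2 =
        ∑ i : Fin m, 1 / 2 * ∑ j : Fin m, H i j * dx (fun z => h z (tl y) i j) (pr y) := by
      apply Finset.sum_congr rfl
      intro i _
      rw [Finset.mul_sum]
      apply Finset.sum_congr rfl
      intro j _
      rw [hH]
      ring
    rw [h5]
    linear_combination (2 * dx (fun z => U z (tl y)) (pr y)) * he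
  have hT1 : ∑ k, christoffel (blkU U h) k k 1 y = 2 * dy (fun z => U z (tl y)) (pr y) +
      dy (fun z => lvol h z (tl y)) (pr y) := by
    have hL : dy (fun z => lvol h z (tl y)) (pr y) =
        1 / 2 * ∑ i, ∑ j, H i j * dy (fun z => h z (tl y) i j) (pr y) :=
      lvol_hasFDerivAt hh (pr y) (tl y) Complex.I
    have hX : ∀ i j, pd 1 (fun z : Fin (m + 2) → ℝ => h (pr z) (tl z) i j) y =
        dy (fun z => h z (tl y) i j) (pr y) := fun i j =>
      (pd_chi' (χ := fun z t => h z t i j) (hχd i j)).2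
    unfold christoffel
    simp only [inv_blkU U hh, sum2, blkU_00, blkU_01, blkU_0s, blkU_10, blkU_11, blkU_1s, blkU_s0, blkU_s1,
      blkU_ss, hinv_apply, pd_const, hX, hE, hU1, zero_mul, zero_div, add_zero, zero_add, sub_zero,
      Finset.sum_const_zero]
    rw [hL, Finset.mul_sum]
    have h5 : ∑ i : Fin m, ∑ j : Fin m, (Matrix.of (h (pr y) (tl y)))⁻¹ i j *
        dy (fun z => h z (tl y) i j) (pr y) / 2 =
        ∑ i : Fin m, 1 / 2 * ∑ j : Fin m, H i j * dy (fun z => h z (tl y) i j) (pr y) := by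
      apply Finset.sum_congr rfl
      intro i _
      rw [Finset.mul_sum]
      apply Finset.sum_congr rfl
      intro j _
      rw [hH]
      ring
    rw [h5]
    linear_combination (2 * dy (fun z => U z (tl y)) (pr y)) * he
  -- the normal field
  have hn0 : nu (blkU U h) 0 = fun z => Real.exp (-(U (pr z) (tl z))) * (z 0 / √(z 0 ^ 2 + z 1 ^ 2)) :=
    funext fun z => (nu_blkU U hh z).1
  have hn1 : nu (blkU U h) 1 = fun z => Real.exp (-(U (pr z) (tl z))) * (z 1 / √(z 0 ^ 2 + z 1 ^ 2)) :=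
    funext fun z => (nu_blkU U hh z).2.1
  have hn2 : ∀ i : Fin m, nu (blkU U h) i.succ.succ = fun _ => 0 := fun i =>
    funext fun z => (nu_blkU U hh z).2.2 i
  obtain ⟨⟨hd0, hd1⟩, hp0, hp1⟩ := pd_rad (m := m) hr
  have hsq : √(y 0 ^ 2 + y 1 ^ 2) = 1 := by rw [hr, Real.sqrt_one]
  have hwn : DifferentiableAt ℝ (fun z : Fin (m + 2) → ℝ => -(U (pr z) (tl z))) y := hUd.neg
  have hpn : ∀ k, pd k (fun z : Fin (m + 2) → ℝ => -(U (pr z) (tl z))) y =
      -(pd k (fun z : Fin (m + 2) → ℝ => U (pr z) (tl z)) y) := by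
    intro k
    unfold pd
    rw [fderiv_fun_neg]
    rfl
  have hA0 : pd 0 (nu (blkU U h) 0) y =
      Real.exp (-(U (pr y) (tl y))) * (1 - y 0 ^ 2 - y 0 * dx (fun z => U z (tl y)) (pr y)) := by
    rw [hn0, pd_mul hwn.exp hd0, pd_exp hwn, hp0, hpn, hsq, hU0]
    ring
  have hA1 : pd 1 (nu (blkU U h) 1) y =
      Real.exp (-(U (pr y) (tl y))) * (1 - y 1 ^ 2 - y 1 * dy (fun z => U z (tl y)) (pr y)) := by
    rw [hn1, pd_mul hwn.exp hd1, pd_exp hwn, hp1, hpn, hsq, hU1]
    ring
  have hA2 : ∀ i : Fin m, pd i.succ.succ (nu (blkU U h) i.succ.succ) y = 0 := by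
    intro i
    rw [hn2, pd_const]
  have hv0 : nu (blkU U h) 0 y = Real.exp (-(U (pr y) (tl y))) * y 0 := by
    rw [hn0]
    simp only [hsq, div_one]
  have hv1 : nu (blkU U h) 1 y = Real.exp (-(U (pr y) (tl y))) * y 1 := by
    rw [hn1]
    simp only [hsq, div_one]
  have hv2 : ∀ i : Fin m, nu (blkU U h) i.succ.succ y = 0 := fun i => by rw [hn2]
  have hB : ∑ k, ∑ j, christoffel (blkU U h) k k j y * nu (blkU U h) j y =
      (2 * dx (fun z => U z (tl y)) (pr y) + dx (fun z => lvol h z (tl y)) (pr y)) *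
        (Real.exp (-(U (pr y) (tl y))) * y 0) +
      (2 * dy (fun z => U z (tl y)) (pr y) + dy (fun z => lvol h z (tl y)) (pr y)) *
        (Real.exp (-(U (pr y) (tl y))) * y 1) := by
    rw [Finset.sum_comm, sum2]
    simp only [hv0, hv1, hv2, mul_zero, Finset.sum_const_zero, add_zero]
    rw [← Finset.sum_mul, ← Finset.sum_mul, hT0, hT1]
  unfold meanCurv
  rw [Finset.sum_add_distrib, hB, sum2, hA0, hA1]
  simp only [hA2, Finset.sum_const_zero, add_zero]
  have h2 : (pr y).re = y 0 := rfl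
  have h3 : (pr y).im = y 1 := rfl
  have hradφ : rad (fun z => U z (tl y)) (pr y) = y 0 * dx (fun z => U z (tl y)) (pr y) + y 1 * dy (fun z => U z (tl y)) (pr y) := by
    unfold rad
    rw [h2, h3]
    rfl
  have hradχ : rad (fun z => lvol h z (tl y)) (pr y) =
      y 0 * dx (fun z => lvol h z (tl y)) (pr y) +
      y 1 * dy (fun z => lvol h z (tl y)) (pr y) := by
    unfold rad
    rw [h2, h3]
    rfl
  rw [hradφ, hradχ]
  linear_combination (-(Real.exp (-(U (pr y) (tl y))))) * hr

end Pool.Agent.BCS.H46
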